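import Mathlib
import Pool.Agent.W2helper64.RD.Ram

set_option autoImplicit false

/-! An abstract hereditary principle: if, at every large scale, every large finite set contains a good subset with
`m` elements, then every infinite set contains an infinite set all of whose late subsets with `m` elements are good
at the scales of an ultrafilter, all members of which have positive upper density. -/

namespace Pool.Agent.W2helper64.HE

open Finset Filter
open Pool.Agent.W2helper64.RD

/-- the number of the elements of `A` in `[1, N]` -/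
noncomputable def cn (A : Set ℕ) (N : ℕ) : ℕ := (A ∩ Set.Icc 1 N).ncard

/-- `A` has positive upper density -/
def PosUD (A : Set ℕ) : Prop := ∃ δ : ℝ, 0 < δ ∧ ∃ᶠ N : ℕ in atTop, δ * N ≤ (cn A N : ℝ)

lemma fin_icc (A : Set ℕ) (N : ℕ) : (A ∩ Set.Icc 1 N).Finite := (Set.finite_Icc 1 N).inter_of_right A

lemma cn_mono {A B : Set ℕ} (h : A ⊆ B) (N : ℕ) : cn A N ≤ cn B N :=
  Set.ncard_le_ncard (Set.inter_subset_inter_left _ h) (fin_icc B N)

lemma cn_union (A B : Set ℕ) (N : ℕ) : cn (A ∪ B) N ≤ cn A N + cn B N := by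
  unfold cn
  rw [Set.union_inter_distrib_right]
  exact Set.ncard_union_le _ _

lemma PosUD.mono {A B : Set ℕ} (h : A ⊆ B) (hA : PosUD A) : PosUD B := by
  obtain ⟨δ, hδ, h1⟩ := hA
  refine ⟨δ, hδ, h1.mono fun N hN => hN.trans ?_⟩
  rw [Nat.cast_le]
  exact cn_mono h N

/-- the filter of the sets of density one -/
def dens : Filter ℕ where
  sets := {A | ∀ δ : ℝ, 0 < δ → ∀ᶠ N : ℕ in atTop, (cn Aᶜ N : ℝ) ≤ δ * N}
  univ_sets := by
    intro δ hδ
    filter_upwards with N
    rw [Set.compl_univ]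
    have : cn (∅ : Set ℕ) N = 0 := by
      unfold cn
      rw [Set.empty_inter, Set.ncard_empty]
    rw [this]
    simp only [Nat.cast_zero]
    positivity
  sets_of_superset := by
    intro A B hA hAB δ hδ
    filter_upwards [hA δ hδ] with N hN
    refine le_trans ?_ hN
    rw [Nat.cast_le]
    exact cn_mono (Set.compl_subset_compl.2 hAB) N
  inter_sets := by
    intro A B hA hB δ hδ
    filter_upwards [hA (δ / 2) (by positivity), hB (δ / 2) (by positivity)] with N h1 h2
    rw [Set.compl_inter]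
    have h3 : (cn (Aᶜ ∪ Bᶜ) N : ℝ) ≤ cn Aᶜ N + cn Bᶜ N := by exact_mod_cast cn_union Aᶜ Bᶜ N
    linarith

lemma dens_neBot : dens.NeBot := by
  constructor
  intro h
  have h1 : (∅ : Set ℕ) ∈ dens := by rw [h]; exact mem_bot
  have h2 : ∀ᶠ N : ℕ in atTop, (cn (∅ : Set ℕ)ᶜ N : ℝ) ≤ 1 / 2 * N := h1 (1 / 2) (by norm_num)
  obtain ⟨N, hN, hN1⟩ := (h2.and (eventually_ge_atTop 1)).exists
  have h3 : cn (∅ : Set ℕ)ᶜ N = N := by
    unfold cn
    rw [Set.compl_empty, Set.univ_inter, ← Finset.coe_Icc, Set.ncard_coe_finset, Nat.card_Icc]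
    omega
  rw [h3] at hN
  have : (1 : ℝ) ≤ N := by exact_mod_cast hN1
  linarith

lemma dens_le : dens ≤ atTop := by
  rw [← Nat.cofinite_eq_atTop]
  intro A hA
  rw [mem_cofinite] at hA
  intro δ hδ
  obtain ⟨M, hM⟩ := exists_nat_ge ((hA.toFinset.card : ℝ) / δ)
  filter_upwards [eventually_ge_atTop M] with N hN
  have h1 : cn Aᶜ N ≤ hA.toFinset.card := by
    unfold cn
    rw [← Set.ncard_eq_toFinset_card _ hA]
    exact Set.ncard_le_ncard Set.inter_subset_left hA
  have h2 : (hA.toFinset.card : ℝ) ≤ δ * N := by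
    rw [div_le_iff₀ hδ] at hM
    have : (M : ℝ) ≤ N := by exact_mod_cast hN
    nlinarith
  exact le_trans (by exact_mod_cast h1) h2

/-- every member of an ultrafilter finer than the filter of the sets of density one has positive upper density -/
lemma posUD_of {U : Ultrafilter ℕ} (hU : (U : Filter ℕ) ≤ dens) {A : Set ℕ} (hA : A ∈ U) : PosUD A := by
  by_contra hcon
  have h1 : Aᶜ ∈ dens := by
    intro δ hδ
    rw [compl_compl]
    by_contra h2
    apply hcon
    refine ⟨δ, hδ, ?_⟩
    rw [Filter.not_eventually] at h2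
    refine h2.mono fun N hN => ?_
    push Not at hN
    exact hN.le
  have h2 : Aᶜ ∈ U := hU h1
  exact (Ultrafilter.compl_notMem_iff.2 hA) h2

/-- a set of positive upper density lies in an ultrafilter finer than the filter of the sets of density one -/
lemma exists_ultra {S : Set ℕ} (hS : PosUD S) : ∃ U : Ultrafilter ℕ, (U : Filter ℕ) ≤ dens ∧ S ∈ U := by
  have hne : (dens ⊓ 𝓟 S).NeBot := by
    rw [inf_principal_neBot_iff]
    intro A hA
    by_contra hcon
    rw [Set.not_nonempty_iff_eq_empty] at hcon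
    obtain ⟨δ, hδ, h1⟩ := hS
    have h2 : ∀ᶠ N : ℕ in atTop, (cn Aᶜ N : ℝ) ≤ δ / 2 * N := hA (δ / 2) (by positivity)
    obtain ⟨N, hN, hN2, hN1⟩ := (h1.and_eventually (h2.and (eventually_ge_atTop 1))).exists
    have h3 : cn S N ≤ cn Aᶜ N := by
      apply cn_mono
      intro x hx hx2
      have : x ∈ A ∩ S := ⟨hx2, hx⟩
      rw [hcon] at this
      exact this
    have h4 : (cn S N : ℝ) ≤ cn Aᶜ N := by exact_mod_cast h3
    have h5 : (1 : ℝ) ≤ N := by exact_mod_cast hN1
    nlinarith
  obtain ⟨U, hU⟩ := Ultrafilter.exists_le (dens ⊓ 𝓟 S)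
  exact ⟨U, hU.trans inf_le_left, (hU.trans inf_le_right) (mem_principal_self S)⟩

/-- hitting families: every large finite subset of an infinite set contains, at all scales of `U`, a good tuple -/
lemma hit {U : Ultrafilter ℕ} {P : Finset ℕ → ℕ → Prop} {S : Finset (Finset ℕ)}
    (h : ∀ᶠ N in U, ∃ T ∈ S, P T N) : ∃ T ∈ S, ∀ᶠ N in U, P T N := by
  by_contra hcon
  push Not at hcon
  have h1 : ∀ᶠ N in U, ∀ T ∈ S, ¬ P T N := by
    rw [Filter.eventually_all_finset]
    intro T hT
    exact hcon T hT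
  obtain ⟨N, ⟨T, hT, hN⟩, h2⟩ := (h.and h1).exists
  exact h2 T hT hN

end Pool.Agent.W2helper64.HE
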