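import Mathlib
import Pool.Agent.W2helper64.HE.Abs
import Pool.Agent.R498.MT.QSys

set_option autoImplicit false

/-! Hereditary sets of shifts for cuban numbers with at most three prime factors, together with further polynomials. -/

namespace Pool.Agent.W2helper64.HE.Cu

open Finset Filter Polynomial
open Pool.Agent.W2helper64.RD
open Pool.Agent.W2helper64.HE

/-- at most `r` prime factors, all of them at least `w` -/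
def AP (r : ℕ) (w : ℝ) (n : ℤ) : Prop :=
  n.natAbs.primeFactorsList.length ≤ r ∧ ∀ p : ℕ, p.Prime → (p : ℤ) ∣ n → w ≤ p

/-- good scales -/
def Good (f : ℤ[X]) (r : ℕ) (δ : ℝ) (l C : ℕ) (H : Finset ℕ) (N : ℕ) : Prop := ∃ u d : ℕ, 1 ≤ d ∧
  (d : ℝ) ≤ Real.log N ^ C ∧ ∀ j < l, N < u + j * d ∧ ((u + j * d : ℕ) : ℝ) ≤ N + (N : ℝ) ^ (3 / 4 : ℝ) ∧
    ∀ h ∈ H, AP 3 ((N : ℝ) ^ (73 / 400 : ℝ)) (3 * ((u + j * d + h : ℕ) : ℤ) ^ 2 + 3 * ((u + j * d + h : ℕ) : ℤ) + 1) ∧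
      AP r ((N : ℝ) ^ δ) (f.eval ((u + j * d + h : ℕ) : ℤ))

lemma Good.mono {f : ℤ[X]} {r : ℕ} {δ : ℝ} {l l' C : ℕ} {H : Finset ℕ} {N : ℕ} (hl : l' ≤ l)
    (h : Good f r δ l C H N) : Good f r δ l' C H N := by
  obtain ⟨u, d, h1, h2, h3⟩ := h
  exact ⟨u, d, h1, h2, fun j hj => h3 j (hj.trans_le hl)⟩

/-- the local condition -/
def Adm (f : ℤ[X]) : Prop := f ≠ 0 ∧ ∀ p : ℕ, p.Prime → ∃ n : ℤ, ¬ (p : ℤ) ∣ (3 * n ^ 2 + 3 * n + 1) * f.eval n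

/-- good along the ultrafilter for all lengths -/
def GU (U : Ultrafilter ℕ) (f : ℤ[X]) (H : Finset ℕ) : Prop :=
  ∃ (r : ℕ) (δ : ℝ), 0 < δ ∧ ∀ l : ℕ, ∃ C : ℕ, ∀ᶠ N in U, Good f r δ l C H N

lemma stage (U : Ultrafilter ℕ) (hU : (U : Filter ℕ) ≤ atTop) (f : ℤ[X]) (m : ℕ) (Y : Set ℕ) (hY : Y.Infinite) :
    ∃ Z ⊆ Y, Z.Infinite ∧ (Adm f → ∀ H : Finset ℕ, (H : Set ℕ) ⊆ Z → H.card = m → GU U f H) := by
  classical
  by_cases ha : Adm f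
  swap
  · exact ⟨Y, le_rfl, hY, fun h => absurd h ha⟩
  obtain ⟨K, hK⟩ := Pool.Agent.R498.MT.quad_sys 3 3 1 (by norm_num)
    (by
      rintro ⟨r, hr⟩
      nlinarith [mul_self_nonneg r]) f ha.1 ha.2 m
  obtain ⟨Z, h1, h2, h3⟩ := ramsey m (GU U f) Y hY
  rcases h3 with h3 | h3
  · exact ⟨Z, h1, h2, fun _ => h3⟩
  · exfalso
    obtain ⟨V, hV1, hV2⟩ := h2.exists_subset_card_eq K
    obtain ⟨r, δ, hδ, hK2⟩ := hK V hV2.ge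
    have h5 : ∀ T : Finset ℕ, ∃ l : ℕ, T ∈ V.powerset → T.card = m → ∀ C : ℕ, ¬ ∀ᶠ N in U, Good f r δ l C T N := by
      intro T
      by_cases hT : T ∈ V.powerset ∧ T.card = m
      · have h6 := h3 T (fun x hx => hV1 (mem_powerset.1 hT.1 hx)) hT.2
        have h7 : ∃ l : ℕ, ∀ C : ℕ, ¬ ∀ᶠ N in U, Good f r δ l C T N := by
          by_contra hcon
          apply h6
          refine ⟨r, δ, hδ, fun l => ?_⟩
          by_contra hcon2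
          exact hcon ⟨l, fun C h => hcon2 ⟨C, h⟩⟩
        obtain ⟨l, hl⟩ := h7
        exact ⟨l, fun _ _ => hl⟩
      · exact ⟨0, fun h1 h2 => absurd ⟨h1, h2⟩ hT⟩
    choose σ hσ using h5
    obtain ⟨C, hC⟩ := hK2 (V.powerset.sup σ)
    have h6 : ∀ᶠ N in U, ∃ T ∈ V.powerset, T.card = m ∧ Good f r δ (V.powerset.sup σ) C T N := by
      refine Filter.Eventually.filter_mono hU ?_
      filter_upwards [hC] with N hN
      obtain ⟨H, hH, hHc, u, d, h7, h8, h9⟩ := hN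
      refine ⟨H, mem_powerset.2 hH, hHc, u, d, h7, h8, fun j hj => ?_⟩
      obtain ⟨g1, g2, g3⟩ := h9 j hj
      refine ⟨g1, g2, fun h hh => ?_⟩
      obtain ⟨k1, k2, k3, k4⟩ := g3 h hh
      exact ⟨⟨k1, k2⟩, k3, k4⟩
    obtain ⟨T, hT, hT2⟩ := hit h6
    have hTc : T.card = m := by
      obtain ⟨N, hN⟩ := hT2.exists
      exact hN.1
    refine hσ T hT hTc C ?_
    filter_upwards [hT2] with N hN
    exact hN.2.mono (le_sup (f := σ) hT)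

lemma countable_poly : Countable ℤ[X] := by
  rw [← Cardinal.mk_le_aleph0_iff]
  exact Polynomial.cardinalMk_le_max.trans (by simp)

theorem mainU (U : Ultrafilter ℕ) (hU1 : (U : Filter ℕ) ≤ atTop) (V : Set ℕ) (hV : V.Infinite) :
    ∃ B ⊆ V, B.Infinite ∧
    ∃ (K : ℤ[X] → ℕ → ℕ) (r : ℤ[X] → Finset ℕ → ℕ) (δ : ℤ[X] → Finset ℕ → ℝ) (C : ℤ[X] → ℕ → Finset ℕ → ℕ),
      (∀ f H, 0 < δ f H) ∧ ∀ F : Finset (ℤ[X] × ℕ × Finset ℕ),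
      (∀ x ∈ F, Adm x.1 ∧ (x.2.2 : Set ℕ) ⊆ B ∧ ∀ h ∈ x.2.2, K x.1 x.2.2.card ≤ h) →
      ∀ᶠ N in U, ∀ x ∈ F, Good x.1 (r x.1 x.2.2) (δ x.1 x.2.2) x.2.1 (C x.1 x.2.1 x.2.2) x.2.2 N := by
  classical
  have := countable_poly
  obtain ⟨e, he⟩ := exists_surjective_nat (ℤ[X] × ℕ)
  obtain ⟨b, hb, hbV, -, hd⟩ := diag (fun j Z => Adm (e j).1 → ∀ H : Finset ℕ, (H : Set ℕ) ⊆ Z →
      H.card = (e j).2 → GU U (e j).1 H)
    (fun j Z Z' hZ h h1 T hT => h h1 T (hT.trans hZ)) (fun j Y hY => stage U hU1 (e j).1 (e j).2 Y hY) V hV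
  choose κ hκ using he
  have hR : ∀ (f : ℤ[X]) (H : Finset ℕ), ∃ (r : ℕ) (δ : ℝ), 0 < δ ∧ (GU U f H → ∀ l : ℕ, ∃ C : ℕ,
      ∀ᶠ N in U, Good f r δ l C H N) := by
    intro f H
    by_cases h : GU U f H
    · obtain ⟨r, δ, h1, h2⟩ := h
      exact ⟨r, δ, h1, fun _ => h2⟩
    · exact ⟨0, 1, one_pos, fun h2 => absurd h2 h⟩
  choose r δ hδ hR using hR
  have hC : ∀ (f : ℤ[X]) (l : ℕ) (H : Finset ℕ), ∃ C : ℕ, GU U f H → ∀ᶠ N in U, Good f (r f H) (δ f H) l C H N := by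
    intro f l H
    by_cases h : GU U f H
    · obtain ⟨C, hC⟩ := hR f H h l
      exact ⟨C, fun _ => hC⟩
    · exact ⟨0, fun h2 => absurd h2 h⟩
  choose C hC using hC
  refine ⟨Set.range b, ?_, Set.infinite_range_of_injective hb.injective, fun f m => b (κ (f, m)), r, δ, C, hδ,
    fun F hF => ?_⟩
  · rintro _ ⟨i, rfl⟩
    exact hbV i
  rw [Filter.eventually_all_finset]
  intro x hx
  obtain ⟨h1, h2, h3⟩ := hF x hx
  apply hC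
  have h4 := hd (κ (x.1, x.2.2.card))
  rw [hκ] at h4
  refine h4 h1 x.2.2 ?_ rfl
  intro y hy
  obtain ⟨i, rfl⟩ := h2 hy
  exact ⟨i, hb.le_iff_le.1 (h3 (b i) hy), rfl⟩

theorem main_dens (S : Set ℕ) (hS : PosUD S) (V : Set ℕ) (hV : V.Infinite) : ∃ B ⊆ V, B.Infinite ∧
    ∃ (K : ℤ[X] → ℕ → ℕ) (r : ℤ[X] → Finset ℕ → ℕ) (δ : ℤ[X] → Finset ℕ → ℝ) (C : ℤ[X] → ℕ → Finset ℕ → ℕ),
      (∀ f H, 0 < δ f H) ∧ ∀ F : Finset (ℤ[X] × ℕ × Finset ℕ),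
      (∀ x ∈ F, Adm x.1 ∧ (x.2.2 : Set ℕ) ⊆ B ∧ ∀ h ∈ x.2.2, K x.1 x.2.2.card ≤ h) →
      PosUD {N | N ∈ S ∧ ∀ x ∈ F, Good x.1 (r x.1 x.2.2) (δ x.1 x.2.2) x.2.1 (C x.1 x.2.1 x.2.2) x.2.2 N} := by
  obtain ⟨U, hU, hSU⟩ := exists_ultra hS
  obtain ⟨B, h1, h2, K, r, δ, C, h3, h4⟩ := mainU U (hU.trans dens_le) V hV
  exact ⟨B, h1, h2, K, r, δ, C, h3, fun F hF => posUD_of hU (Filter.inter_mem hSU (h4 F hF))⟩

end Pool.Agent.W2helper64.HE.Cu
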