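import Mathlib
import Pool.Agent.W2helper64.HE.Abs
import Pool.Agent.Results.MP_391708_nt.Clusters

set_option autoImplicit false

/-! Hereditary sets of shifts for products of at most three primes of the form `n ^ 2 + a`. -/

namespace Pool.Agent.W2helper64.HE

open Finset Filter
open Pool.Agent.W2helper64.RD
open Pool.Agent.Results.MP_391708_nt.Clusters (AlmostPrime)

/-- at the scale `N` there is a progression of length `l` and difference `≤ (log N) ^ C` for whose members `u` all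
the numbers `(u + h) ^ 2 + a`, `h ∈ H`, are products of at most three large primes -/
def Good (a : ℤ) (l C : ℕ) (H : Finset ℕ) (N : ℕ) : Prop := ∃ u d : ℕ, 1 ≤ d ∧ (d : ℝ) ≤ Real.log N ^ C ∧
  ∀ j < l, N < u + j * d ∧ ((u + j * d : ℕ) : ℝ) ≤ N + (N : ℝ) ^ (3 / 4 : ℝ) ∧
    ∀ h ∈ H, AlmostPrime 3 ((N : ℝ) ^ (73 / 400 : ℝ)) (((u + j * d + h : ℕ) : ℤ) ^ 2 + a)

lemma Good.mono {a : ℤ} {l l' C : ℕ} {H : Finset ℕ} {N : ℕ} (hl : l' ≤ l) (h : Good a l C H N) :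
    Good a l' C H N := by
  obtain ⟨u, d, h1, h2, h3⟩ := h
  exact ⟨u, d, h1, h2, fun j hj => h3 j (hj.trans_le hl)⟩

/-- good along the ultrafilter for all lengths -/
def GU (U : Ultrafilter ℕ) (a : ℤ) (H : Finset ℕ) : Prop :=
  ∀ l : ℕ, ∃ C : ℕ, ∀ᶠ N in U, Good a l C H N

lemma stage (U : Ultrafilter ℕ) (hU : (U : Filter ℕ) ≤ atTop) (a : ℤ) (m : ℕ) (Y : Set ℕ) (hY : Y.Infinite) :
    ∃ Z ⊆ Y, Z.Infinite ∧ (¬ IsSquare (-a) → ∀ H : Finset ℕ, (H : Set ℕ) ⊆ Z → H.card = m → GU U a H) := by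
  classical
  by_cases ha : IsSquare (-a)
  · exact ⟨Y, le_rfl, hY, fun h => absurd ha h⟩
  obtain ⟨K, hK⟩ := Pool.Agent.Results.MP_391708_nt.Clusters.result a ha m
  obtain ⟨Z, h1, h2, h3⟩ := ramsey m (GU U a) Y hY
  rcases h3 with h3 | h3
  · exact ⟨Z, h1, h2, fun _ => h3⟩
  · exfalso
    obtain ⟨V, hV1, hV2⟩ := h2.exists_subset_card_eq K
    have h5 : ∀ T : Finset ℕ, ∃ l : ℕ, T ∈ V.powerset → T.card = m → ∀ C : ℕ, ¬ ∀ᶠ N in U, Good a l C T N := by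
      intro T
      by_cases hT : T ∈ V.powerset ∧ T.card = m
      · have h6 := h3 T (fun x hx => hV1 (mem_powerset.1 hT.1 hx)) hT.2
        have h7 : ∃ l : ℕ, ∀ C : ℕ, ¬ ∀ᶠ N in U, Good a l C T N := by
          by_contra hcon
          apply h6
          intro l
          by_contra hcon2
          exact hcon ⟨l, fun C h => hcon2 ⟨C, h⟩⟩
        obtain ⟨l, hl⟩ := h7
        exact ⟨l, fun _ _ => hl⟩
      · exact ⟨0, fun h1 h2 => absurd ⟨h1, h2⟩ hT⟩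
    choose σ hσ using h5
    obtain ⟨C, hC⟩ := hK V hV2.ge (V.powerset.sup σ)
    have h6 : ∀ᶠ N in U, ∃ T ∈ V.powerset, T.card = m ∧ Good a (V.powerset.sup σ) C T N := by
      refine Filter.Eventually.filter_mono hU ?_
      filter_upwards [hC] with N hN
      obtain ⟨H, hH, hHc, u, d, h7⟩ := hN
      exact ⟨H, mem_powerset.2 hH, hHc, u, d, h7⟩
    obtain ⟨T, hT, hT2⟩ := hit h6
    have hTc : T.card = m := by
      obtain ⟨N, hN⟩ := hT2.exists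
      exact hN.1
    refine hσ T hT hTc C ?_
    filter_upwards [hT2] with N hN
    exact hN.2.mono (le_sup (f := σ) hT)

theorem mainU (U : Ultrafilter ℕ) (hU1 : (U : Filter ℕ) ≤ atTop) (V : Set ℕ) (hV : V.Infinite) :
    ∃ B ⊆ V, B.Infinite ∧
    ∃ (K : ℤ → ℕ → ℕ) (C : ℤ → ℕ → Finset ℕ → ℕ), ∀ F : Finset (ℤ × ℕ × Finset ℕ),
      (∀ x ∈ F, ¬ IsSquare (-x.1) ∧ (x.2.2 : Set ℕ) ⊆ B ∧ ∀ h ∈ x.2.2, K x.1 x.2.2.card ≤ h) →
      ∀ᶠ N in U, ∀ x ∈ F, Good x.1 x.2.1 (C x.1 x.2.1 x.2.2) x.2.2 N := by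
  classical
  obtain ⟨f, hf⟩ := exists_surjective_nat (ℤ × ℕ)
  obtain ⟨b, hb, hbV, -, hd⟩ := diag (fun j Z => ¬ IsSquare (-(f j).1) → ∀ H : Finset ℕ, (H : Set ℕ) ⊆ Z →
      H.card = (f j).2 → GU U (f j).1 H)
    (fun j Z Z' hZ h h1 T hT => h h1 T (hT.trans hZ)) (fun j Y hY => stage U hU1 (f j).1 (f j).2 Y hY) V hV
  choose κ hκ using hf
  have hC : ∀ (a : ℤ) (l : ℕ) (H : Finset ℕ), ∃ C : ℕ, GU U a H → ∀ᶠ N in U, Good a l C H N := by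
    intro a l H
    by_cases h : GU U a H
    · obtain ⟨C, hC⟩ := h l
      exact ⟨C, fun _ => hC⟩
    · exact ⟨0, fun h2 => absurd h2 h⟩
  choose C hC using hC
  refine ⟨Set.range b, ?_, Set.infinite_range_of_injective hb.injective, fun a m => b (κ (a, m)), C,
    fun F hF => ?_⟩
  · rintro _ ⟨i, rfl⟩
    exact hbV i
  rw [Filter.eventually_all_finset]
  intro x hx
  obtain ⟨h1, h2, h3⟩ := hF x hx
  apply hC
  have h4 := hd (κ (x.1, x.2.2.card))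
  rw [hκ] at h4
  refine h4 h1 x.2.2 ?_ rfl
  intro y hy
  obtain ⟨i, rfl⟩ := h2 hy
  exact ⟨i, hb.le_iff_le.1 (h3 (b i) hy), rfl⟩

theorem main_dens (S : Set ℕ) (hS : PosUD S) (V : Set ℕ) (hV : V.Infinite) : ∃ B ⊆ V, B.Infinite ∧
    ∃ (K : ℤ → ℕ → ℕ) (C : ℤ → ℕ → Finset ℕ → ℕ), ∀ F : Finset (ℤ × ℕ × Finset ℕ),
      (∀ x ∈ F, ¬ IsSquare (-x.1) ∧ (x.2.2 : Set ℕ) ⊆ B ∧ ∀ h ∈ x.2.2, K x.1 x.2.2.card ≤ h) →
      PosUD {N | N ∈ S ∧ ∀ x ∈ F, Good x.1 x.2.1 (C x.1 x.2.1 x.2.2) x.2.2 N} := by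
  obtain ⟨U, hU, hSU⟩ := exists_ultra hS
  obtain ⟨B, h1, h2, K, C, h3⟩ := mainU U (hU.trans dens_le) V hV
  exact ⟨B, h1, h2, K, C, fun F hF => posUD_of hU (Filter.inter_mem hSU (h3 F hF))⟩

end Pool.Agent.W2helper64.HE
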